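import Pool.Agent.KS6_40.WP.Core

/-!
# The competitive ratio of WPL trees is at least `n - 1`, from every initial tree

From every initial tree one can force the tree in which the keys `n - 2` and `n` are the two
children of `n - 1` and `n - 1` is the last node of the path `1, 2, …, n - 3, n - 1`, with a counter
of `n - 1` which is so large that long blocks of accesses to `n` and long blocks of accesses to
`n - 2` in turn never cause a rotation: a rotation would bring the accessed key up, but its parent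
and its sibling down.  Each of these accesses costs `n - 1`.  The offline algorithm keeps the key
of the present block at the root, which needs one rotation for each block.
-/

set_option autoImplicit false

namespace Pool.Agent.Results.MP_69b7b0_lc.LinearRatio

open Pool.Agent.R566.WPL Pool.Agent.R566.WPL.BST Pool.Agent.KS6_40.WP

/-- **The competitive ratio of the WPL tree algorithm on `n` keys is between `n - 1` and
`2 n - 1`.**  (1) For every `n ≥ 3`, every initial tree `T₀` on the keys `1, …, n`, every real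
`c < n - 1` and every `a` there is a request sequence `σ` with `cost(T₀, σ) > c · OPT(T₀, σ) + a`.
(2) For every `n ≥ 1`, all `T₀` and all `σ` one has `cost(T₀, σ) ≤ (2 n - 1) · OPT(T₀, σ)`.
(3) In particular there is no constant `C` with `cost(T₀, σ) ≤ C · log n · OPT(T₀, σ) + C n` for all
`n ≥ 2`, all `T₀` and all `σ`. -/
theorem result :
    (∀ n : ℕ, 3 ≤ n → ∀ T₀ : BST, On n T₀ → ∀ c a : ℝ, c < (n : ℝ) - 1 →
      ∃ σ : List ℕ, (∀ x ∈ σ, 1 ≤ x ∧ x ≤ n) ∧
        c * (opt T₀ σ : ℝ) + a < (wplCost T₀ σ : ℝ)) ∧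
    (∀ n : ℕ, 1 ≤ n → ∀ T₀ : BST, On n T₀ → ∀ σ : List ℕ, (∀ x ∈ σ, 1 ≤ x ∧ x ≤ n) →
      (wplCost T₀ σ : ℝ) ≤ (2 * (n : ℝ) - 1) * (opt T₀ σ : ℝ)) ∧
    ¬ (∃ C : ℝ, ∀ n : ℕ, 2 ≤ n → ∀ T₀ : BST, On n T₀ → ∀ σ : List ℕ,
      (∀ x ∈ σ, 1 ≤ x ∧ x ≤ n) →
      (wplCost T₀ σ : ℝ) ≤ C * Real.log n * (opt T₀ σ : ℝ) + C * n) := by
  have h1 : ∀ n : ℕ, 3 ≤ n → ∀ T₀ : BST, On n T₀ → ∀ c a : ℝ, c < (n : ℝ) - 1 →
      ∃ σ : List ℕ, (∀ x ∈ σ, 1 ≤ x ∧ x ≤ n) ∧
        c * (opt T₀ σ : ℝ) + a < (wplCost T₀ σ : ℝ) := by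
    intro n hn T₀ hT₀ c₀ a hc₀
    obtain ⟨k, rfl⟩ : ∃ k, n = k + 3 := ⟨n - 3, by omega⟩
    have hN : (((k + 3 : ℕ) : ℝ) - 1) = (k : ℝ) + 2 := by push_cast; ring
    rw [hN] at hc₀
    obtain ⟨c, hcc, hc0, hc⟩ : ∃ c : ℝ, c₀ ≤ c ∧ 0 ≤ c ∧ c < (k : ℝ) + 2 :=
      ⟨max c₀ 0, le_max_left _ _, le_max_right _ _, max_lt hc₀ (by positivity)⟩
    have hd : 0 < (k : ℝ) + 2 - c := by linarith
    obtain ⟨K, hK⟩ := exists_nat_gt (c / ((k : ℝ) + 2 - c))
    rw [div_lt_iff₀ hd] at hK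
    obtain ⟨π, hπ, hcost⟩ := cost_ge K k hT₀
    obtain ⟨R, hR⟩ := opt_blocks_le k hT₀ π
    have hδ : 0 < 2 * K * ((k : ℝ) + 2) - c * (2 * K + 2) := by nlinarith
    obtain ⟨m, hm⟩ := exists_nat_gt ((c * R + a) / (2 * K * ((k : ℝ) + 2) - c * (2 * K + 2)))
    rw [div_lt_iff₀ hδ] at hm
    refine ⟨π ++ blocks k K m, fun x hx => ?_, ?_⟩
    · rcases List.mem_append.1 hx with hx | hx
      · exact hπ x hx
      · exact mem_blocks hx
    · have h3 : (opt T₀ (π ++ blocks k K m) : ℝ) ≤ m * (2 * K + 2) + R := by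
        exact_mod_cast hR K m
      have h4 : (m : ℝ) * (2 * K * (k + 2)) ≤ (wplCost T₀ (π ++ blocks k K m) : ℝ) := by
        exact_mod_cast hcost m
      have h5 : c₀ * (opt T₀ (π ++ blocks k K m) : ℝ) ≤ c * (m * (2 * K + 2) + R) :=
        (mul_le_mul_of_nonneg_right hcc (Nat.cast_nonneg _)).trans
          (mul_le_mul_of_nonneg_left h3 hc0)
      nlinarith
  refine ⟨h1, fun n hn T₀ hT₀ σ hσ => ?_, ?_⟩
  · have h2 := wplCostFrom_le σ (fun _ => 0) T₀ hT₀ hσ
    have h3 : (wplCost T₀ σ : ℝ) ≤ (2 * (n : ℝ) - 1) * (σ.length : ℝ) := by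
      have h4 : ((2 * n - 1 : ℕ) : ℝ) = 2 * (n : ℝ) - 1 := by
        rw [Nat.cast_sub (by omega)]
        push_cast
        ring
      rw [← h4]
      exact_mod_cast h2
    have h5 : (σ.length : ℝ) ≤ (opt T₀ σ : ℝ) := by exact_mod_cast length_le_opt T₀ σ
    have h6 : (1 : ℝ) ≤ n := by exact_mod_cast hn
    exact h3.trans (mul_le_mul_of_nonneg_left h5 (by linarith))
  · rintro ⟨C, hC⟩
    have hlim : Filter.Tendsto (fun n : ℕ => C * Real.log (n : ℝ) / (n : ℝ)) Filter.atTop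
        (nhds (C * 0)) := by
      have h := (Real.isLittleO_log_id_atTop.tendsto_div_nhds_zero).comp
        (tendsto_natCast_atTop_atTop (R := ℝ))
      have h' := h.const_mul C
      refine h'.congr fun n => ?_
      simp only [Function.comp, id]
      ring
    rw [mul_zero] at hlim
    obtain ⟨n, hn1, hn2⟩ := ((hlim.eventually (gt_mem_nhds (show (0 : ℝ) < 1 / 2 by norm_num))).and
      (Filter.eventually_ge_atTop 3)).exists
    obtain ⟨k, rfl⟩ : ∃ k, n = k + 3 := ⟨n - 3, by omega⟩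
    have hpos : (0 : ℝ) < ((k + 3 : ℕ) : ℝ) := by positivity
    rw [div_lt_iff₀ hpos] at hn1
    obtain ⟨σ, hσ, h2⟩ := h1 (k + 3) (by omega) (deep k 1) (on_deep k)
      (C * Real.log ((k + 3 : ℕ) : ℝ)) (C * ((k + 3 : ℕ) : ℝ)) (by
        have h3 : (3 : ℝ) ≤ ((k + 3 : ℕ) : ℝ) := by
          push_cast
          have : (0 : ℝ) ≤ k := Nat.cast_nonneg k
          linarith
        linarith)
    exact absurd (hC (k + 3) (by omega) (deep k 1) (on_deep k) σ hσ) (not_le.2 h2)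

end Pool.Agent.Results.MP_69b7b0_lc.LinearRatio
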